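import Pool.Agent.TH760.EN.Defs
import Pool.Agent.TH698.NagT3

/-! Five points of equal multiplicity on the small triangle of slope `4 / 5`, from two and three. -/

namespace Pool.Agent.TH938.Q5

open Pool.Agent.TH176.Nag Pool.Agent.TH603.Sur Pool.Agent.TH760.EN

/-- the rows may be pushed to the left -/
theorem Emp_rows {ι : Type} {w : ι → ℕ} {S S' : Set (ℤ × ℤ)}
    (hS : ∀ (b : ℤ) (A : Finset ℤ), (∀ a ∈ A, ((a, b) : ℤ × ℤ) ∈ S) →
      ∀ k : ℕ, k < A.card → (((k : ℤ), b) : ℤ × ℤ) ∈ S') (h : Emp w S') : Emp w S := by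
  have h1 : Emp w {p : ℤ × ℤ | (p.2, p.1) ∈ S'} :=
    h.comap 0 1 1 0 0 0 (by norm_num) (fun p hp => by simpa using hp)
  have h2 : Emp w {p : ℤ × ℤ | (p.2, p.1) ∈ S} :=
    Emp_flat0 (fun a B hB k hk => hS a B hB k hk) h1
  exact h2.comap 0 1 1 0 0 0 (by norm_num) (fun p hp => by simpa using hp)

theorem five (h2 : HE 2) (h3 : HE 3) (m : ℕ) {S : Set (ℤ × ℤ)} (hfin : S.Finite)
    (h0 : ∀ p ∈ S, 0 ≤ p.1 ∧ 0 ≤ p.2)
    (hrow : ∀ (b : ℤ) (A : Finset ℤ), (∀ a ∈ A, ((a, b) : ℤ × ℤ) ∈ S ∧ 2 * (m : ℤ) ≤ 2 * a + b) →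
      ∀ k : ℕ, k < A.card → 4 * (k : ℤ) + 3 * b < 6 * (m : ℤ)) :
    Emp (fun _ : Fin 5 => m) S := by
  have hA : Emp (fun _ : Fin 2 => m) (S ∩ {p | 2 * p.1 + p.2 < 2 * (m : ℤ)}) := by
    refine (h2 m).mono ?_
    rintro ⟨i, y⟩ ⟨hp, hq⟩
    have := h0 _ hp
    simp only [QQ, Set.mem_setOf_eq] at hq this ⊢
    push_cast
    refine ⟨this.1, this.2, by omega⟩
  have hB : Emp (fun _ : Fin 3 => m) (S ∩ {p | 2 * (m : ℤ) ≤ 2 * p.1 + p.2}) := by
    refine Emp_rows ?_ (h3 m)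
    intro b A hA k hk
    have h4 := hrow b A (fun a ha => hA a ha) k hk
    obtain ⟨a, ha⟩ := Finset.card_pos.1 (by omega : 0 < A.card)
    have h5 := h0 _ (hA a ha).1
    simp only [QQ, Set.mem_setOf_eq] at h5 ⊢
    push_cast
    refine ⟨by omega, h5.2, by omega⟩
  have hC := Pool.Agent.TH698.NagT3.Emp_cut (hfin.subset Set.inter_subset_left)
    (hfin.subset Set.inter_subset_left) (fun p hp => h0 p hp.1) (fun p hp => h0 p hp.1) 2 1
    (fun p hp q hq => by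
      have h6 := hp.2
      have h7 := hq.2
      simp only [Set.mem_setOf_eq] at h6 h7
      omega) hA hB
  have hD := Emp_emb (v := fun _ : Fin 5 => m) (finSumFinEquiv (m := 2) (n := 3))
    (finSumFinEquiv (m := 2) (n := 3)).injective (by rintro (i | i) <;> simp) hC
  refine hD.mono ?_
  intro p hp
  by_cases h8 : 2 * p.1 + p.2 < 2 * (m : ℤ)
  · exact Or.inl ⟨hp, h8⟩
  · exact Or.inr ⟨hp, not_lt.1 h8⟩

theorem he5 (h2 : HE 2) (h3 : HE 3) : HE 5 := by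
  intro m
  refine five h2 h3 m ?_ (fun p hp => ⟨hp.1, hp.2.1⟩) ?_
  · refine (Finset.finite_toSet (Finset.Icc (0 : ℤ) (10 * m) ×ˢ Finset.Icc (0 : ℤ) (10 * m))).subset ?_
    rintro ⟨i, y⟩ ⟨h4, h5, h6⟩
    simp only [Nat.cast_ofNat] at h4 h5 h6
    simp only [Finset.coe_product, Finset.coe_Icc, Set.mem_prod, Set.mem_Icc]
    omega
  · intro b A hA k hk
    have hsub : A ⊆ Finset.Icc ((2 * (m : ℤ) - b + 1) / 2) ((10 * (m : ℤ) - 5 * b - 1) / 4) := by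
      intro a ha
      obtain ⟨⟨h4, h5, h6⟩, h7⟩ := hA a ha
      simp only [Nat.cast_ofNat] at h4 h5 h6
      rw [Finset.mem_Icc]
      omega
    have hc := Finset.card_le_card hsub
    rw [Int.card_Icc] at hc
    omega

/-- the length of the row at height `2 m - 1 - z` -/
def rl (z : ℕ) : ℕ := (z + 2) / 2 + (3 * z + 6) / 4

theorem sum_rl (m : ℕ) : ∑ z ∈ Finset.range (2 * m), rl z = 5 * (m + 1).choose 2 := by
  induction m with
  | zero => rfl
  | succ m ih =>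
    have h1 : (m + 1 + 1).choose 2 = (m + 1) + (m + 1).choose 2 := by
      rw [Nat.choose_succ_succ' (m + 1) 1, Nat.choose_one_right]
    have h2 : rl (2 * m) + rl (2 * m + 1) = 5 * (m + 1) := by
      unfold rl
      omega
    rw [show 2 * (m + 1) = 2 * m + 1 + 1 by ring, Finset.sum_range_succ, Finset.sum_range_succ, ih,
      h1, add_assoc, h2]
    ring

/-- the test set -/
def TT (m : ℕ) : Finset (ℤ × ℤ) :=
  ((Finset.range (2 * m)).sigma (fun z => Finset.range (rl z))).image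
    (fun p : (_ : ℕ) × ℕ => (((p.2 : ℕ) : ℤ), 2 * (m : ℤ) - 1 - (p.1 : ℤ)))

theorem mem_TT {m : ℕ} {p : ℤ × ℤ} (hp : p ∈ TT m) : 0 ≤ p.1 ∧ 0 ≤ p.2 ∧ p.2 < 2 * (m : ℤ) ∧
    p.1 < (2 * (m : ℤ) - p.2 + 1) / 2 + (3 * (2 * (m : ℤ) - p.2) + 3) / 4 := by
  unfold TT rl at hp
  rw [Finset.mem_image] at hp
  obtain ⟨⟨z, i⟩, h1, rfl⟩ := hp
  simp only [Finset.mem_sigma, Finset.mem_range] at h1
  obtain ⟨h1, h2⟩ := h1
  have e1 : 2 * (m : ℤ) - (2 * (m : ℤ) - 1 - (z : ℤ)) = (z : ℤ) + 1 := by ring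
  simp only
  rw [e1]
  have e2 : ((z : ℤ) + 1 + 1) / 2 = (((z + 2) / 2 : ℕ) : ℤ) := by omega
  have e3 : (3 * ((z : ℤ) + 1) + 3) / 4 = (((3 * z + 6) / 4 : ℕ) : ℤ) := by omega
  rw [e2, e3]
  refine ⟨by omega, by omega, by omega, ?_⟩
  exact_mod_cast h2

theorem card_TT (m : ℕ) : (TT m).card = 5 * (m + 1).choose 2 := by
  unfold TT
  rw [Finset.card_image_of_injective, Finset.card_sigma, ← sum_rl]
  · simp
  · rintro ⟨z, i⟩ ⟨z', i'⟩ h
    simp only [Prod.mk.injEq] at h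
    obtain ⟨h1, h2⟩ := h
    obtain rfl : i = i' := by omega
    obtain rfl : z = z' := by omega
    rfl

theorem hs5 (h2 : HE 2) (h3 : HE 3) : HS 5 := by
  intro m
  refine ⟨TT m, ?_, ?_, ?_⟩
  · intro p hp
    obtain ⟨h4, h5, h6, h7⟩ := mem_TT (Finset.mem_coe.1 hp)
    simp only [QS, Set.mem_setOf_eq]
    push_cast
    refine ⟨h4, h5, h6, ?_⟩
    omega
  · rw [card_TT]
    unfold Pool.Agent.TH603.Sur.cond
    simp
  · refine five h2 h3 m (Finset.finite_toSet _) (fun p hp => ?_) ?_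
    · obtain ⟨h4, h5, h6, h7⟩ := mem_TT (Finset.mem_coe.1 hp)
      exact ⟨h4, h5⟩
    · intro b A hA k hk
      have hsub : A ⊆ Finset.Ico ((2 * (m : ℤ) - b + 1) / 2)
          ((2 * (m : ℤ) - b + 1) / 2 + (3 * (2 * (m : ℤ) - b) + 3) / 4) := by
        intro a ha
        obtain ⟨h3, h8⟩ := hA a ha
        obtain ⟨h4, h5, h6, h7⟩ := mem_TT (Finset.mem_coe.1 h3)
        simp only at h4 h5 h6 h7
        rw [Finset.mem_Ico]
        refine ⟨?_, h7⟩
        omega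
      have hc := Finset.card_le_card hsub
      rw [Int.card_Ico] at hc
      omega

end Pool.Agent.TH938.Q5
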