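import Mathlib
import Pool.Agent.TH444.ML.Defs
import Pool.Agent.TH938.ML.Shift

/-!
# Project ML: residue classes in the fundamental cone
-/

set_option autoImplicit false

open NumberField Filter Topology Bornology MeasureTheory Module
open NumberField.mixedEmbedding NumberField.mixedEmbedding.fundamentalCone
open NumberField.mixedEmbedding.euclidean NumberField.Units
open scoped Classical nonZeroDivisors

namespace Pool.Agent.TH938.J3088

open Pool.Agent.TH444.ML Pool.Agent.TH938.ML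

variable (M : Type) [Field M] [NumberField M]

lemma norm_emb (α : 𝓞 M) : mixedEmbedding.norm (mixedEmbedding M (α : M)) = nrm α := by
  rw [norm_eq_norm, nrm, ← Algebra.coe_norm_int, ← Int.cast_abs, Rat.cast_intCast]

/-- the set of elements of norm at most one of the cone, in the euclidean space -/
noncomputable def SS : Set (euclidean.mixedSpace M) := (toMixed M) ⁻¹' (normLeOne M)

lemma SS_bdd : IsBounded (SS M) := (toMixed M).antilipschitz.isBounded_preimage (isBounded_normLeOne M)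

lemma SS_meas : MeasurableSet (SS M) :=
  (toMixed M).continuous.measurable (measurableSet_normLeOne M)

lemma SS_front : volume (frontier (SS M)) = 0 := by
  unfold SS
  rw [← (toMixed M).coe_toHomeomorph, ← Homeomorph.preimage_frontier,
      (toMixed M).coe_toHomeomorph, (volumePreserving_toMixed M).measure_preimage
      measurableSet_frontier.nullMeasurableSet, volume_frontier_normLeOne]

/-- the lattice of an ideal -/
noncomputable def LL (J : (Ideal (𝓞 M))⁰) : Submodule ℤ (euclidean.mixedSpace M) :=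
  ZLattice.comap ℝ (mixedEmbedding.idealLattice M (FractionalIdeal.mk0 M J))
    (toMixed M).toLinearMap

instance (J : (Ideal (𝓞 M))⁰) : DiscreteTopology (LL M J) := by
  unfold LL; infer_instance

instance (J : (Ideal (𝓞 M))⁰) : IsZLattice ℝ (LL M J) := by
  unfold LL; infer_instance

/-- image of an integer -/
noncomputable def ev (α : 𝓞 M) : euclidean.mixedSpace M :=
  (toMixed M).symm (mixedEmbedding M (α : M))

lemma ev_sub (α β : 𝓞 M) : ev M (α - β) = ev M α - ev M β := by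
  unfold ev
  rw [← map_sub]
  congr 1
  rw [← map_sub]
  rfl

lemma ev_inj : Function.Injective (ev M) :=
  (toMixed M).symm.injective.comp ((mixedEmbedding_injective M).comp RingOfIntegers.coe_injective)

lemma mem_LL (J : (Ideal (𝓞 M))⁰) (x : euclidean.mixedSpace M) :
    x ∈ LL M J ↔ ∃ β ∈ (J : Ideal (𝓞 M)), ev M β = x := by
  have h0 : x ∈ LL M J ↔ (toMixed M) x ∈ mixedEmbedding.idealLattice M (FractionalIdeal.mk0 M J) :=
    Iff.rfl
  rw [h0, mem_idealLattice]
  constructor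
  · rintro ⟨y, hy, hyx⟩
    rw [FractionalIdeal.coe_mk0] at hy
    obtain ⟨β, hβ, rfl⟩ := (FractionalIdeal.mem_coeIdeal _).mp hy
    refine ⟨β, hβ, ?_⟩
    unfold ev
    rw [ContinuousLinearEquiv.symm_apply_eq]
    exact hyx
  · rintro ⟨β, hβ, rfl⟩
    refine ⟨(β : M), ?_, ?_⟩
    · rw [FractionalIdeal.coe_mk0]
      exact (FractionalIdeal.mem_coeIdeal _).mpr ⟨β, hβ, rfl⟩
    · unfold ev
      rw [ContinuousLinearEquiv.apply_symm_apply]

lemma mem_SS (α : 𝓞 M) {n : ℕ} (hn : 0 < n) :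
    (n : ℝ)⁻¹ • ev M α ∈ SS M ↔ α ∈ cone M ∧ nrm α ≤ (n : ℝ) ^ finrank ℚ M := by
  have hn0 : (0 : ℝ) < n := by exact_mod_cast hn
  unfold SS ev
  rw [Set.mem_preimage, map_smul, ContinuousLinearEquiv.apply_symm_apply, mem_normLeOne,
    smul_mem_iff_mem (inv_ne_zero hn0.ne'), mixedEmbedding.norm_smul, norm_emb, abs_inv,
    abs_of_pos hn0, inv_pow, inv_mul_le_iff₀ (by positivity), mul_one]
  rfl

/-- the set of the elements that are counted -/
def CS (𝔟 : Ideal (𝓞 M)) (a : 𝓞 M) (Z : ℝ) : Set (𝓞 M) :=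
  {α : 𝓞 M | α ∈ cone M ∧ α - a ∈ 𝔟 ∧ nrm α ≤ Z}

lemma CS_image (J : (Ideal (𝓞 M))⁰) (a : 𝓞 M) {n : ℕ} (hn : 0 < n) :
    (fun α => (n : ℝ)⁻¹ • ev M α) '' CS M J a ((n : ℝ) ^ finrank ℚ M) =
      Pts (LL M J) (SS M) (ev M a) n := by
  have hn0 : (n : ℝ) ≠ 0 := by exact_mod_cast hn.ne'
  ext x
  constructor
  · rintro ⟨α, ⟨h1, h2, h3⟩, rfl⟩
    refine ⟨(mem_SS M α hn).mpr ⟨h1, h3⟩, ?_⟩
    show (n : ℝ) • ((n : ℝ)⁻¹ • ev M α) - ev M a ∈ LL M J
    rw [smul_inv_smul₀ hn0, ← ev_sub, mem_LL]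
    exact ⟨α - a, h2, rfl⟩
  · rintro ⟨h1, h2⟩
    obtain ⟨β, hβ, hβx⟩ := (mem_LL M J _).mp h2
    have hx : (n : ℝ)⁻¹ • ev M (β + a) = x := by
      have h3 : ev M β = ev M (β + a) - ev M a := by rw [← ev_sub, add_sub_cancel_right]
      rw [h3, sub_left_inj] at hβx
      rw [hβx, inv_smul_smul₀ hn0]
    have h4 := (mem_SS M (β + a) hn).mp (by rw [hx]; exact h1)
    exact ⟨β + a, ⟨h4.1, by rw [add_sub_cancel_right]; exact hβ, h4.2⟩, hx⟩

lemma smul_ev_inj {n : ℕ} (hn : 0 < n) : Function.Injective fun α => (n : ℝ)⁻¹ • ev M α := by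
  have hn0 : (n : ℝ) ≠ 0 := by exact_mod_cast hn.ne'
  exact (smul_right_injective _ (inv_ne_zero hn0)).comp (ev_inj M)

lemma CS_finite (J : (Ideal (𝓞 M))⁰) (a : 𝓞 M) (Z : ℝ) : (CS M J a Z).Finite := by
  obtain ⟨n, hn⟩ := exists_nat_gt (max Z 1)
  have hn1 : (1 : ℝ) < n := (le_max_right _ _).trans_lt hn
  have hn2 : Z < n := (le_max_left _ _).trans_lt hn
  have hn0 : 0 < n := by
    have : (0 : ℝ) < n := by linarith
    exact_mod_cast this
  have h1 : (CS M J a ((n : ℝ) ^ finrank ℚ M)).Finite := by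
    refine Set.Finite.of_finite_image (f := fun α => (n : ℝ)⁻¹ • ev M α) ?_
      (smul_ev_inj M hn0).injOn
    rw [CS_image M J a hn0]
    exact pts_finite (LL M J) (SS_bdd M) _ hn0
  refine h1.subset ?_
  rintro α ⟨h2, h3, h4⟩
  refine ⟨h2, h3, h4.trans (hn2.le.trans ?_)⟩
  exact le_self_pow₀ hn1.le finrank_pos.ne'

theorem coneDens : ConeDens := by
  intro M _ _ 𝔟 h𝔟 a
  set J : (Ideal (𝓞 M))⁰ := ⟨𝔟, mem_nonZeroDivisors_of_ne_zero h𝔟⟩ with hJ
  refine ⟨volume.real (SS M) / ZLattice.covolume (LL M J), ?_⟩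
  have hlim := pts_shift (LL M J) (SS_bdd M) (SS_meas M) (SS_front M) (ev M a)
  rw [euclidean.finrank] at hlim
  refine squeeze (B := fun Z => ((CS M 𝔟 a Z).ncard : ℝ)) ?_ (D := finrank ℚ M) finrank_pos ?_
  · intro Z Z' hZ
    show ((CS M 𝔟 a Z).ncard : ℝ) ≤ (CS M 𝔟 a Z').ncard
    have h1 : CS M 𝔟 a Z ⊆ CS M 𝔟 a Z' := fun α h => ⟨h.1, h.2.1, h.2.2.trans hZ⟩
    exact_mod_cast Set.ncard_le_ncard h1 (CS_finite M J a Z')
  · refine hlim.congr' ?_
    filter_upwards [eventually_gt_atTop 0] with n hn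
    congr 2
    rw [← CS_image M J a hn, Set.ncard_image_of_injective _ (smul_ev_inj M hn)]

theorem coneFacts : ConeFacts := by
  intro M _ _
  refine ⟨fun Z => ?_, fun α hα => ?_, fun α hα => ?_⟩
  · have h1 := CS_finite M ⟨⊤, mem_nonZeroDivisors_of_ne_zero (by simp)⟩ 0 Z
    refine h1.subset ?_
    rintro α ⟨h2, h3⟩
    exact ⟨h2, Submodule.mem_top, h3⟩
  · rintro rfl
    have h1 := norm_pos_of_mem hα
    simp at h1
  · have hx : mixedEmbedding.norm (mixedEmbedding M (α : M)) ≠ 0 := by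
      rw [norm_eq_norm]
      have : (α : M) ≠ 0 := by exact_mod_cast hα
      simpa using this
    obtain ⟨u₀, hu₀⟩ := exists_unit_smul_mem hx
    have key : ∀ u : (𝓞 M)ˣ, (u : 𝓞 M) * α ∈ cone M ↔ u * u₀⁻¹ ∈ torsion M := by
      intro u
      rw [← unit_smul_mem_iff_mem_torsion hu₀, smul_smul, inv_mul_cancel_right, unitSMul_smul]
      rw [← map_mul, ← map_mul]
      rfl
    have hset : {u : (𝓞 M)ˣ | (u : 𝓞 M) * α ∈ cone M} =
        (fun u => u * u₀) '' (torsion M : Set (𝓞 M)ˣ) := by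
      ext u
      rw [Set.mem_ofPred_eq, key]
      constructor
      · intro h
        exact ⟨u * u₀⁻¹, h, inv_mul_cancel_right u u₀⟩
      · rintro ⟨v, hv, rfl⟩
        show v * u₀ * u₀⁻¹ ∈ torsion M
        rwa [mul_inv_cancel_right]
    rw [hset, Set.ncard_image_of_injective _ (mul_left_injective u₀), torsionOrder,
      ← Nat.card_coe_set_eq]
    rfl

end Pool.Agent.TH938.J3088
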