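import Pool.Agent.TH37.SD.Defs

/-!
# Project SD: central extension of an HNN extension
-/

set_option autoImplicit false

namespace Pool.Agent.TH938.SDHAT

open Pool.Agent.TH54.BU Pool.Agent.TH37.SD

theorem hat : HatStmt := by
  intro C L _ _ π z hs hker hcen U V ψ Uh Vh ψh hU hV hψ hz1
  have hπz : π z = 1 := by
    have : z ∈ π.ker := by rw [hker]; exact Subgroup.mem_zpowers z
    exact this
  have hzU : z ∈ Uh := (hU z).mpr (by rw [hπz]; exact U.one_mem)
  -- the map
  let φ : HNNExtension C Uh Vh ψh →* HNNExtension L U V ψ :=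
    HNNExtension.lift (HNNExtension.of.comp π) HNNExtension.t (fun c => by
      have h : π (c : C) ∈ U := (hU c).mp c.2
      have h1 := HNNExtension.t_mul_of (φ := ψ) ⟨π (c : C), h⟩
      rw [MonoidHom.comp_apply, MonoidHom.comp_apply, hψ c h]
      exact h1)
  have hφof : ∀ c : C, φ (HNNExtension.of c) = HNNExtension.of (π c) := fun c => by
    simp [φ]
  have hφt : φ HNNExtension.t = HNNExtension.t := by simp [φ]
  have hcenz : ∀ a : HNNExtension C Uh Vh ψh, a * HNNExtension.of z = HNNExtension.of z * a := by
    intro a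
    induction a using HNNExtension.induction_on with
    | of g => rw [← map_mul, ← map_mul, hcen]
    | t =>
      have h1 := HNNExtension.t_mul_of (φ := ψh) ⟨z, hzU⟩
      rw [hz1 hzU] at h1
      exact h1
    | mul a b ha hb => rw [mul_assoc, hb, ← mul_assoc, ha, mul_assoc]
    | inv a ha =>
      rw [inv_mul_eq_iff_eq_mul, ← mul_assoc, ha, mul_assoc, mul_inv_cancel, mul_one]
  refine ⟨φ, hφof, hφt, ?_, ?_, hcenz⟩
  · intro x
    induction x using HNNExtension.induction_on with
    | of g =>
      obtain ⟨c, rfl⟩ := hs g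
      exact ⟨HNNExtension.of c, hφof c⟩
    | t => exact ⟨HNNExtension.t, hφt⟩
    | mul a b ha hb =>
      obtain ⟨a', rfl⟩ := ha
      obtain ⟨b', rfl⟩ := hb
      exact ⟨a' * b', map_mul _ _ _⟩
    | inv a ha =>
      obtain ⟨a', rfl⟩ := ha
      exact ⟨a'⁻¹, map_inv _ _⟩
  · apply le_antisymm
    · -- the kernel
      have hN : (Subgroup.zpowers (HNNExtension.of z : HNNExtension C Uh Vh ψh)).Normal := by
        constructor
        intro n hn g
        obtain ⟨k, rfl⟩ := Subgroup.mem_zpowers_iff.mp hn
        have h1 : Commute g (HNNExtension.of z) := hcenz g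
        have h2 : g * HNNExtension.of z ^ k = HNNExtension.of z ^ k * g := (h1.zpow_right k).eq
        rw [h2, mul_inv_cancel_right]
        exact Subgroup.mem_zpowers_iff.mpr ⟨k, rfl⟩
      set N := Subgroup.zpowers (HNNExtension.of z : HNNExtension C Uh Vh ψh) with hNdef
      let g : C →* HNNExtension C Uh Vh ψh ⧸ N := (QuotientGroup.mk' N).comp HNNExtension.of
      have hg : π.ker ≤ g.ker := by
        rw [hker, Subgroup.zpowers_le]
        show (QuotientGroup.mk' N) (HNNExtension.of z) = 1
        rw [QuotientGroup.mk'_apply, QuotientGroup.eq_one_iff]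
        exact Subgroup.mem_zpowers _
      let σL : L →* HNNExtension C Uh Vh ψh ⧸ N := π.liftOfSurjective hs ⟨g, hg⟩
      have hσL : ∀ c : C, σL (π c) = g c := fun c =>
        MonoidHom.liftOfRightInverse_comp_apply π _ _ ⟨g, hg⟩ c
      let σ : HNNExtension L U V ψ →* HNNExtension C Uh Vh ψh ⧸ N :=
        HNNExtension.lift σL (QuotientGroup.mk' N HNNExtension.t) (fun u => by
          obtain ⟨c, hc⟩ := hs (u : L)
          have hcU : c ∈ Uh := (hU c).mpr (by rw [hc]; exact u.2)
          have h1 := HNNExtension.t_mul_of (φ := ψh) ⟨c, hcU⟩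
          have h2 : π c ∈ U := by rw [hc]; exact u.2
          have h3 := hψ ⟨c, hcU⟩ h2
          have h4 : (⟨π c, h2⟩ : U) = u := Subtype.ext hc
          rw [h4] at h3
          rw [← h3, ← hc, hσL, hσL]
          show QuotientGroup.mk' N HNNExtension.t * QuotientGroup.mk' N (HNNExtension.of c) =
            QuotientGroup.mk' N (HNNExtension.of (ψh ⟨c, hcU⟩ : C)) *
              QuotientGroup.mk' N HNNExtension.t
          rw [← map_mul, ← map_mul, h1])
      have hcomp : σ.comp φ = QuotientGroup.mk' N := by
        apply HNNExtension.hom_ext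
        · ext c
          show σ (φ (HNNExtension.of c)) = QuotientGroup.mk' N (HNNExtension.of c)
          rw [hφof]
          simp only [σ, HNNExtension.lift_of]
          exact hσL c
        · show σ (φ HNNExtension.t) = QuotientGroup.mk' N HNNExtension.t
          rw [hφt]
          simp only [σ, HNNExtension.lift_t]
      intro a ha
      have h1 : φ a = 1 := ha
      have h2 : QuotientGroup.mk' N a = 1 := by
        rw [← hcomp, MonoidHom.comp_apply, h1, map_one]
      rwa [QuotientGroup.mk'_apply, QuotientGroup.eq_one_iff] at h2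
    · rw [Subgroup.zpowers_le]
      show φ (HNNExtension.of z) = 1
      rw [hφof, hπz, map_one]

end Pool.Agent.TH938.SDHAT
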