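import Pool.Agent.TH948.HT.Defs

set_option autoImplicit false
set_option linter.unusedSectionVars false

/-!
# Transfer from the random order to binomial random hypergraphs
-/

namespace Pool.Agent.TH948.HT

open Finset
open scoped Classical
open Pool.Agent.TH965.Spread Pool.Agent.TH948.KK Pool.Agent.TH948.BD

namespace Transfer

/-- The edges as a type. -/
abbrev Ed (n k : ℕ) : Type := {s : Finset (Fin n) // s.card = k}

/-- The first `t` edges. -/
noncomputable def Hh {n k : ℕ} (σ : Fin (n.choose k) ≃ Ed n k) (t : ℕ) :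
    Finset (Finset (Fin n)) :=
  (univ.filter (fun i : Fin (n.choose k) => i.val < t)).image (fun i => (σ i).val)

lemma mem_Hh {n k : ℕ} {σ : Fin (n.choose k) ≃ Ed n k} {t : ℕ} {e : Finset (Fin n)} :
    e ∈ Hh σ t ↔ ∃ i : Fin (n.choose k), i.val < t ∧ (σ i).val = e := by
  unfold Hh
  simp only [mem_image, mem_filter, mem_univ, true_and]

lemma Hh_mono {n k : ℕ} (σ : Fin (n.choose k) ≃ Ed n k) {t t' : ℕ} (h : t ≤ t') :
    Hh σ t ⊆ Hh σ t' := by
  intro e he
  rw [mem_Hh] at he ⊢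
  obtain ⟨i, hi, hie⟩ := he
  exact ⟨i, by omega, hie⟩

lemma mem_edges {n k : ℕ} {e : Finset (Fin n)} : e ∈ edges n k ↔ e.card = k := by
  unfold edges
  rw [mem_powersetCard]
  exact ⟨fun h => h.2, fun h => ⟨subset_univ _, h⟩⟩

lemma mem_facets {n k : ℕ} {e : Finset (Fin n)} : e ∈ facets n k ↔ e.card = k - 1 := by
  unfold facets
  rw [mem_powersetCard]
  exact ⟨fun h => h.2, fun h => ⟨subset_univ _, h⟩⟩

lemma Hh_sub {n k : ℕ} (σ : Fin (n.choose k) ≃ Ed n k) (t : ℕ) : Hh σ t ⊆ edges n k := by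
  intro e he
  rw [mem_Hh] at he
  obtain ⟨i, -, hie⟩ := he
  rw [mem_edges, ← hie]
  exact (σ i).2

/-- The event of the statement. -/
def Gd {n k : ℕ} (σ : Fin (n.choose k) ≃ Ed n k) : Prop :=
  ∀ t : ℕ,
    ((∀ f : Finset (Fin n), f.card = k - 1 →
        ∃ i : Fin (n.choose k), i.val < t ∧ f ⊆ (σ i).val) ↔
      (∃ w : Finset (Fin n) → ℝ,
        (∀ e, 0 ≤ w e ∧ w e ≤ 1) ∧
        ∀ f : Finset (Fin n), f.card = k - 1 →
          ∑ i ∈ Finset.univ.filter
              (fun i : Fin (n.choose k) => i.val < t ∧ f ⊆ (σ i).val),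
            w (σ i).val = 1))

lemma cov_iff {n k : ℕ} (σ : Fin (n.choose k) ≃ Ed n k) (t : ℕ) :
    (∀ f : Finset (Fin n), f.card = k - 1 →
        ∃ i : Fin (n.choose k), i.val < t ∧ f ⊆ (σ i).val) ↔ Cov k (Hh σ t) := by
  unfold Cov
  constructor
  · intro h f hf
    obtain ⟨i, hi, hfi⟩ := h f (mem_facets.1 hf)
    exact ⟨(σ i).val, mem_Hh.2 ⟨i, hi, rfl⟩, hfi⟩
  · intro h f hf
    obtain ⟨e, he, hfe⟩ := h f (mem_facets.2 hf)
    obtain ⟨i, hi, hie⟩ := mem_Hh.1 he
    exact ⟨i, hi, by rw [hie]; exact hfe⟩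

lemma sum_Hh {n k : ℕ} (σ : Fin (n.choose k) ≃ Ed n k) (t : ℕ) (f : Finset (Fin n))
    (w : Finset (Fin n) → ℝ) :
    ∑ e ∈ (Hh σ t).filter (fun e => f ⊆ e), w e =
      ∑ i ∈ Finset.univ.filter (fun i : Fin (n.choose k) => i.val < t ∧ f ⊆ (σ i).val),
        w (σ i).val := by
  have h1 : (Hh σ t).filter (fun e => f ⊆ e) =
      (Finset.univ.filter (fun i : Fin (n.choose k) => i.val < t ∧ f ⊆ (σ i).val)).image
        (fun i => (σ i).val) := by
    ext e
    rw [mem_filter, mem_Hh, mem_image]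
    constructor
    · rintro ⟨⟨i, hi, hie⟩, hfe⟩
      exact ⟨i, mem_filter.2 ⟨mem_univ _, hi, by rw [hie]; exact hfe⟩, hie⟩
    · rintro ⟨i, hi, hie⟩
      obtain ⟨-, hi1, hi2⟩ := mem_filter.1 hi
      exact ⟨⟨i, hi1, hie⟩, by rw [← hie]; exact hi2⟩
  rw [h1, sum_image]
  intro i _ j _ hij
  exact σ.injective (Subtype.ext hij)

lemma frac_iff {n k : ℕ} (σ : Fin (n.choose k) ≃ Ed n k) (t : ℕ) :
    (∃ w : Finset (Fin n) → ℝ,
        (∀ e, 0 ≤ w e ∧ w e ≤ 1) ∧
        ∀ f : Finset (Fin n), f.card = k - 1 →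
          ∑ i ∈ Finset.univ.filter
              (fun i : Fin (n.choose k) => i.val < t ∧ f ⊆ (σ i).val),
            w (σ i).val = 1) ↔ Frac k (Hh σ t) := by
  unfold Frac
  constructor
  · rintro ⟨w, hw, h⟩
    refine ⟨w, hw, fun f hf => ?_⟩
    rw [sum_Hh]
    exact h f (mem_facets.1 hf)
  · rintro ⟨w, hw, h⟩
    refine ⟨w, hw, fun f hf => ?_⟩
    rw [← sum_Hh]
    exact h f (mem_facets.2 hf)

lemma frac_cov {n k : ℕ} {H : Finset (Finset (Fin n))} (h : Frac k H) : Cov k H := by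
  obtain ⟨w, -, hw⟩ := h
  intro f hf
  by_contra hcon
  push Not at hcon
  have h1 := hw f hf
  rw [filter_false_of_mem hcon, sum_empty] at h1
  exact zero_ne_one h1

lemma cov_mono {n k : ℕ} {H H' : Finset (Finset (Fin n))} (hH : H ⊆ H') (h : Cov k H) :
    Cov k H' := by
  intro f hf
  obtain ⟨e, he, hfe⟩ := h f hf
  exact ⟨e, hH he, hfe⟩

lemma frac_mono {n k : ℕ} {H H' : Finset (Finset (Fin n))} (hH : H ⊆ H') (h : Frac k H) :
    Frac k H' := by
  obtain ⟨w, hw, h⟩ := h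
  refine ⟨fun e => if e ∈ H then w e else 0, fun e => ?_, fun f hf => ?_⟩
  · by_cases he : e ∈ H
    · simp only [if_pos he]; exact hw e
    · simp only [if_neg he]; norm_num
  · rw [← h f hf, ← sum_filter]
    refine sum_congr ?_ fun _ _ => rfl
    ext e
    rw [mem_filter, mem_filter, mem_filter]
    constructor
    · rintro ⟨⟨-, h1⟩, h2⟩
      exact ⟨h2, h1⟩
    · rintro ⟨h1, h2⟩
      exact ⟨⟨hH h1, h2⟩, h1⟩

lemma claim {n k : ℕ} (Bad : Finset (Finset (Fin n)) → Finset (Finset (Fin n)) → Prop)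
    (h1 : ∀ H₁ H H₂ : Finset (Finset (Fin n)), H₁ ⊆ H → H ⊆ H₂ → H₂ ⊆ edges n k →
      ¬ Bad H₁ H₂ → Cov k H → Frac k H)
    (h2 : ∀ H₁ H₂ : Finset (Finset (Fin n)), H₁ ⊆ H₂ → H₂ ⊆ edges n k → ¬ Bad H₁ H₂ →
      ¬ Cov k H₁ ∧ Cov k H₂) (σ : Fin (n.choose k) ≃ Ed n k) (a b : ℕ) (hab : a ≤ b)
    (hB : ¬ Bad (Hh σ a) (Hh σ b)) : Gd σ := by
  obtain ⟨hnc, hc⟩ := h2 _ _ (Hh_mono σ hab) (Hh_sub σ b) hB
  intro t
  rw [cov_iff, frac_iff]
  constructor
  · intro hcov
    by_cases hta : t ≤ a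
    · exact absurd (cov_mono (Hh_mono σ hta) hcov) hnc
    by_cases htb : t ≤ b
    · exact h1 _ _ _ (Hh_mono σ (not_le.1 hta).le) (Hh_mono σ htb) (Hh_sub σ b) hB hcov
    · refine frac_mono (Hh_mono σ (not_le.1 htb).le) ?_
      exact h1 _ _ _ (Hh_mono σ hab) (subset_refl _) (Hh_sub σ b) hB hc
  · exact frac_cov

lemma card_ed (n k : ℕ) : Fintype.card (Ed n k) = n.choose k := by
  rw [Fintype.card_subtype]
  have : (univ.filter (fun s : Finset (Fin n) => s.card = k)) = edges n k := by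
    ext e
    rw [mem_filter, mem_edges]
    simp
  rw [this]
  unfold edges
  rw [card_powersetCard, card_univ, Fintype.card_fin]

lemma lower {N : ℕ} (A : Finset (Fin N)) (h : ∀ i ∈ A, ∀ j ≤ i, j ∈ A) (i : Fin N) :
    i.val < A.card ↔ i ∈ A := by
  have hc : (univ.filter (fun i : Fin N => i.val < A.card)).card = A.card := by
    have hA : A.card ≤ N := by
      have := card_le_univ A
      rwa [Fintype.card_fin] at this
    have h1 : (univ.filter (fun i : Fin N => i.val < A.card)) =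
        (range A.card).attachFin (fun m hm => (mem_range.1 hm).trans_le hA) := by
      ext j
      rw [mem_filter, mem_attachFin, mem_range]
      simp
    rw [h1, card_attachFin, card_range]
  have hsub : A ⊆ univ.filter (fun i : Fin N => i.val < A.card) := by
    intro j hj
    rw [mem_filter]
    refine ⟨mem_univ _, ?_⟩
    have h1 : Finset.Iic j ⊆ A := fun l hl => h j hj l (mem_Iic.1 hl)
    have h2 := card_le_card h1
    rw [Fin.card_Iic] at h2
    omega
  have heq := eq_of_subset_of_card_le hsub hc.le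
  constructor
  · intro hi
    rw [heq]
    exact mem_filter.2 ⟨mem_univ _, hi⟩
  · intro hi
    rw [heq] at hi
    exact (mem_filter.1 hi).2

lemma card_pre {n k : ℕ} (σ : Fin (n.choose k) ≃ Ed n k) (W : Finset (Finset (Fin n)))
    (hW : W ⊆ edges n k) : (univ.filter (fun i => (σ i).val ∈ W)).card = W.card := by
  refine card_bij (fun i _ => (σ i).val) ?_ ?_ ?_
  · intro i hi
    exact (mem_filter.1 hi).2
  · intro i _ j _ hij
    exact σ.injective (Subtype.ext hij)
  · intro e he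
    refine ⟨σ.symm ⟨e, mem_edges.1 (hW he)⟩, ?_, ?_⟩
    · rw [mem_filter]
      refine ⟨mem_univ _, ?_⟩
      rw [Equiv.apply_symm_apply]
      exact he
    · rw [Equiv.apply_symm_apply]

lemma exists_order {n k : ℕ} (W V : Finset (Finset (Fin n))) (hWV : W ⊆ V)
    (hV : V ⊆ edges n k) : ∃ σ : Fin (n.choose k) ≃ Ed n k,
      (∀ i, i.val < W.card ↔ (σ i).val ∈ W) ∧ (∀ i, i.val < V.card ↔ (σ i).val ∈ V) := by
  have e0 : Fin (n.choose k) ≃ Ed n k := (Fintype.equivFinOfCardEq (card_ed n k)).symm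
  let rk : Ed n k → ℕ := fun e => if e.val ∈ W then 0 else if e.val ∈ V then 1 else 2
  let f : Fin (n.choose k) → ℕ := fun i => rk (e0 i)
  have hmono := Tuple.monotone_sort f
  let σ : Fin (n.choose k) ≃ Ed n k := (Tuple.sort f).trans e0
  have hσ : ∀ i j, i ≤ j → rk (σ i) ≤ rk (σ j) := fun i j hij => hmono hij
  have hW : ∀ e, rk e ≤ 0 ↔ e.val ∈ W := by
    intro e
    simp only [rk]
    split_ifs with h1 h2
    · simp [h1]
    · simp [h1]
    · simp [h1]
  have hV' : ∀ e, rk e ≤ 1 ↔ e.val ∈ V := by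
    intro e
    simp only [rk]
    split_ifs with h1 h2
    · simp [hWV h1]
    · simp [h2]
    · simp [h2]
  refine ⟨σ, fun i => ?_, fun i => ?_⟩
  · have h := lower (univ.filter (fun i => (σ i).val ∈ W)) (fun i hi j hji => by
      rw [mem_filter] at hi ⊢
      refine ⟨mem_univ _, ?_⟩
      rw [← hW] at hi ⊢
      exact (hσ j i hji).trans hi.2) i
    rw [card_pre σ W (hWV.trans hV), mem_filter] at h
    rw [h]
    simp
  · have h := lower (univ.filter (fun i => (σ i).val ∈ V)) (fun i hi j hji => by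
      rw [mem_filter] at hi ⊢
      refine ⟨mem_univ _, ?_⟩
      rw [← hV'] at hi ⊢
      exact (hσ j i hji).trans hi.2) i
    rw [card_pre σ V hV, mem_filter] at h
    rw [h]
    simp

/-- the permutation of all sets induced by a permutation of the edges -/
noncomputable def ex {n k : ℕ} (π : Equiv.Perm (Ed n k)) : Finset (Fin n) ↪ Finset (Fin n) :=
  (Equiv.Perm.ofSubtype π : Equiv.Perm (Finset (Fin n))).toEmbedding

lemma ex_coe {n k : ℕ} (π : Equiv.Perm (Ed n k)) (e : Ed n k) : ex π e.val = (π e).val :=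
  Equiv.Perm.ofSubtype_apply_coe π e

lemma ex_edges {n k : ℕ} (π : Equiv.Perm (Ed n k)) : (edges n k).map (ex π) = edges n k := by
  refine eq_of_subset_of_card_le ?_ (by rw [card_map])
  intro e he
  rw [mem_map] at he
  obtain ⟨e', he', h⟩ := he
  rw [mem_edges] at he'
  have := ex_coe π ⟨e', he'⟩
  rw [← h, this, mem_edges]
  exact (π ⟨e', he'⟩).2

lemma Hh_map {n k : ℕ} (σ : Fin (n.choose k) ≃ Ed n k) (π : Equiv.Perm (Ed n k))
    (W : Finset (Finset (Fin n))) (hW : W ⊆ edges n k)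
    (h : ∀ i, i.val < W.card ↔ (σ i).val ∈ W) : Hh (σ.trans π) W.card = W.map (ex π) := by
  ext e
  rw [mem_Hh, mem_map]
  constructor
  · rintro ⟨i, hi, hie⟩
    refine ⟨(σ i).val, (h i).1 hi, ?_⟩
    rw [ex_coe, ← hie]
    rfl
  · rintro ⟨e', he', hee⟩
    refine ⟨σ.symm ⟨e', mem_edges.1 (hW he')⟩, ?_, ?_⟩
    · rw [h, Equiv.apply_symm_apply]
      exact he'
    · rw [Equiv.trans_apply, Equiv.apply_symm_apply, ← hee, ← ex_coe]

lemma exs_inv {n k : ℕ} (π : Equiv.Perm (Ed n k)) (p b : ℝ)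
    (F : Finset (Finset (Fin n)) → Finset (Finset (Fin n)) → ℝ) :
    exs (edges n k) p (fun W => exs (edges n k) b (fun U => F W (W ∪ U))) =
      exs (edges n k) p (fun W => exs (edges n k) b (fun U =>
        F (W.map (ex π)) ((W ∪ U).map (ex π)))) := by
  have h1 := exs_map (ex π) (edges n k) p
    (fun W => exs (edges n k) b (fun U => F W (W ∪ U)))
  rw [ex_edges] at h1
  rw [h1]
  refine exs_congr _ _ fun W _ => ?_
  have h2 := exs_map (ex π) (edges n k) b (fun U => F (W.map (ex π)) (W.map (ex π) ∪ U))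
  rw [ex_edges] at h2
  rw [h2]
  refine exs_congr _ _ fun U _ => ?_
  rw [map_union]

lemma exs_fsum {X ι : Type*} [DecidableEq X] (S : Finset ι) (s : Finset X) (p : ℝ)
    (g : ι → Finset X → ℝ) : ∑ i ∈ S, exs s p (g i) = exs s p (fun W => ∑ i ∈ S, g i W) := by
  unfold exs
  rw [sum_comm]
  refine sum_congr rfl fun W _ => ?_
  rw [mul_sum]

end Transfer

open Transfer

theorem transfer {n k : ℕ} (hk : 1 ≤ k) (p b : ℝ) (hp0 : 0 ≤ p) (hp1 : p ≤ 1) (hb0 : 0 ≤ b)
    (hb1 : b ≤ 1) (Bad : Finset (Finset (Fin n)) → Finset (Finset (Fin n)) → Prop)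
    (h1 : ∀ H₁ H H₂ : Finset (Finset (Fin n)), H₁ ⊆ H → H ⊆ H₂ → H₂ ⊆ edges n k →
      ¬ Bad H₁ H₂ → Cov k H → Frac k H)
    (h2 : ∀ H₁ H₂ : Finset (Finset (Fin n)), H₁ ⊆ H₂ → H₂ ⊆ edges n k → ¬ Bad H₁ H₂ →
      ¬ Cov k H₁ ∧ Cov k H₂) :
    1 - exs (edges n k) p (fun W => exs (edges n k) b (fun U => ind (Bad W (W ∪ U)))) ≤
      (((Finset.univ.filter
              (fun σ : Fin (n.choose k) ≃ {s : Finset (Fin n) // s.card = k} =>
                ∀ t : ℕ,
                  ((∀ f : Finset (Fin n), f.card = k - 1 →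
                      ∃ i : Fin (n.choose k), i.val < t ∧ f ⊆ (σ i).val) ↔
                    (∃ w : Finset (Fin n) → ℝ,
                      (∀ e, 0 ≤ w e ∧ w e ≤ 1) ∧
                      ∀ f : Finset (Fin n), f.card = k - 1 →
                        ∑ i ∈ Finset.univ.filter
                            (fun i : Fin (n.choose k) => i.val < t ∧ f ⊆ (σ i).val),
                          w (σ i).val = 1)))).card : ℝ) /
            (Fintype.card (Fin (n.choose k) ≃ {s : Finset (Fin n) // s.card = k}) : ℝ)) := by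
  set q := exs (edges n k) p (fun W => exs (edges n k) b (fun U => ind (Bad W (W ∪ U)))) with hq
  change 1 - q ≤ (((Finset.univ.filter (fun σ : Fin (n.choose k) ≃ Ed n k => Gd σ)).card : ℝ) /
    (Fintype.card (Fin (n.choose k) ≃ Ed n k) : ℝ))
  have e0 : Fin (n.choose k) ≃ Ed n k := (Fintype.equivFinOfCardEq (card_ed n k)).symm
  have hpos : 0 < (Fintype.card (Fin (n.choose k) ≃ Ed n k) : ℝ) := by
    have : 0 < Fintype.card (Fin (n.choose k) ≃ Ed n k) := Fintype.card_pos_iff.2 ⟨e0⟩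
    exact_mod_cast this
  have hcardP : Fintype.card (Equiv.Perm (Ed n k)) = Fintype.card (Fin (n.choose k) ≃ Ed n k) :=
    Fintype.card_congr ⟨fun π => e0.trans π, fun σ => e0.symm.trans σ, fun π => by
      ext x; simp, fun σ => by ext x; simp⟩
  set bad := (Finset.univ.filter (fun σ : Fin (n.choose k) ≃ Ed n k => ¬ Gd σ)).card with hbad
  -- the pointwise bound
  have key : ∀ W ⊆ edges n k, ∀ U ⊆ edges n k, (bad : ℝ) ≤
      ∑ π : Equiv.Perm (Ed n k), ind (Bad (W.map (ex π)) ((W ∪ U).map (ex π))) := by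
    intro W hW U hU
    obtain ⟨σ, hσ1, hσ2⟩ := exists_order W (W ∪ U) subset_union_left (union_subset hW hU)
    have h3 : (bad : ℝ) =
        ∑ π : Equiv.Perm (Ed n k), (if ¬ Gd (σ.trans π) then (1 : ℝ) else 0) := by
      rw [hbad, ← sum_boole]
      refine (Fintype.sum_equiv (⟨fun π => σ.trans π, fun τ => σ.symm.trans τ, fun π => by
        ext x; simp, fun τ => by ext x; simp⟩ : Equiv.Perm (Ed n k) ≃
          (Fin (n.choose k) ≃ Ed n k)) _ _ fun π => rfl).symm
    rw [h3]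
    refine sum_le_sum fun π _ => ?_
    by_cases hg : Gd (σ.trans π)
    · rw [if_neg (not_not.2 hg)]
      exact ind_nonneg _
    · rw [if_pos hg]
      have h4 : Bad (W.map (ex π)) ((W ∪ U).map (ex π)) := by
        by_contra hcon
        rw [← Hh_map σ π W hW hσ1, ← Hh_map σ π (W ∪ U) (union_subset hW hU) hσ2] at hcon
        exact hg (claim Bad h1 h2 (σ.trans π) _ _ (card_le_card subset_union_left) hcon)
      rw [ind_true h4]
  have h5 : (Fintype.card (Fin (n.choose k) ≃ Ed n k) : ℝ) * q =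
      exs (edges n k) p (fun W => exs (edges n k) b (fun U =>
        ∑ π : Equiv.Perm (Ed n k), ind (Bad (W.map (ex π)) ((W ∪ U).map (ex π))))) := by
    have h6 : ∑ π : Equiv.Perm (Ed n k), q =
        (Fintype.card (Fin (n.choose k) ≃ Ed n k) : ℝ) * q := by
      rw [sum_const, card_univ, hcardP, nsmul_eq_mul]
    rw [← h6]
    have h7 : ∀ π : Equiv.Perm (Ed n k), q = exs (edges n k) p (fun W => exs (edges n k) b
        (fun U => ind (Bad (W.map (ex π)) ((W ∪ U).map (ex π))))) := fun π =>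
      exs_inv π p b (fun W V => ind (Bad W V))
    rw [sum_congr rfl fun π _ => h7 π, exs_fsum]
    refine exs_congr _ _ fun W _ => ?_
    rw [exs_fsum]
  have h8 : (bad : ℝ) ≤ (Fintype.card (Fin (n.choose k) ≃ Ed n k) : ℝ) * q := by
    rw [h5]
    calc (bad : ℝ) = exs (edges n k) p (fun _ => (bad : ℝ)) := (exs_const _ _ _).symm
      _ = exs (edges n k) p (fun _ => exs (edges n k) b (fun _ => (bad : ℝ))) := by
          refine exs_congr _ _ fun W _ => ?_
          rw [exs_const]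
      _ ≤ _ := exs_mono _ hp0 hp1 fun W hW => exs_mono _ hb0 hb1 fun U hU => key W hW U hU
  have h9 : (((Finset.univ.filter (fun σ : Fin (n.choose k) ≃ Ed n k => Gd σ)).card : ℝ) +
      (bad : ℝ)) = (Fintype.card (Fin (n.choose k) ≃ Ed n k) : ℝ) := by
    have := Finset.card_filter_add_card_filter_not
      (s := (univ : Finset (Fin (n.choose k) ≃ Ed n k))) (fun σ => Gd σ)
    rw [hbad, ← Nat.cast_add, this, card_univ]
  rw [le_div_iff₀ hpos]
  linarith

end Pool.Agent.TH948.HT
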