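import Pool.Agent.TH597.FD.Stm
import Pool.Agent.H744R2.Falc.Final
import Pool.Agent.H744R2.Falc.FrostR

set_option autoImplicit false

/-! Project FD (helper597): assembly of the theorem in product coordinates. -/

namespace Pool.Agent.TH938.FD_XMAIN

open MeasureTheory Set Metric Complex Filter
open scoped ENNReal Real Topology Pointwise
open Pool.Agent.TH597.FD

theorem norm_integrand (a b t u : ℝ) (ha : 0 ≤ a) (hb : 0 ≤ b) :
    ‖cexp (-((1 - (t : ℂ) * I) * (a : ℂ)) - (1 - (u : ℂ) * I) * (b : ℂ))‖ ≤ 1 := by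
  rw [Complex.norm_exp]
  refine Real.exp_le_one_iff.2 ?_
  simp
  linarith

theorem N_cont {Ω : Type*} [MeasurableSpace Ω] (ν : Measure Ω) [IsProbabilityMeasure ν]
    (f g : Ω → ℝ) (hf : Measurable f) (hg : Measurable g) (hf0 : ∀ ω, 0 ≤ f ω)
    (hg0 : ∀ ω, 0 ≤ g ω) : Continuous (N ν f g) := by
  unfold N
  refine continuous_of_dominated (bound := fun _ => (1 : ℝ)) ?_ ?_ ?_ ?_
  · intro p
    exact Measurable.aestronglyMeasurable (by fun_prop)
  · intro p
    exact ae_of_all _ fun ω => norm_integrand _ _ _ _ (hf0 ω) (hg0 ω)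
  · exact integrable_const _
  · exact ae_of_all _ fun ω => by fun_prop

theorem N_bound {Ω : Type*} [MeasurableSpace Ω] (ν : Measure Ω) [IsProbabilityMeasure ν]
    (f g : Ω → ℝ) (hf0 : ∀ ω, 0 ≤ f ω) (hg0 : ∀ ω, 0 ≤ g ω) (p : ℝ × ℝ) :
    ‖N ν f g p‖ ≤ 1 := by
  unfold N
  have := norm_integral_le_of_norm_le_const (μ := ν) (C := (1 : ℝ))
    (f := fun ω => cexp (-((1 - (p.1 : ℂ) * I) * (f ω : ℂ)) - (1 - (p.2 : ℂ) * I) * (g ω : ℂ)))
    (ae_of_all _ fun ω => norm_integrand _ _ _ _ (hf0 ω) (hg0 ω))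
  simpa using this

theorem v1_cont {m k : ℕ} : Continuous (v1 : (E m × E k) × (E m × E k) → ℝ) := by
  unfold v1; fun_prop

theorem v2_cont {m k : ℕ} : Continuous (v2 : (E m × E k) × (E m × E k) → ℝ) := by
  unfold v2; fun_prop

theorem quadSet_compact {m k : ℕ} {A : Set (E m × E k)} (hA : IsCompact A) (lam : ℝ) :
    IsCompact (quadSet A lam) := by
  have : quadSet A lam =
      (fun p : (E m × E k) × (E m × E k) => v1 p + lam * v2 p) '' (A ×ˢ A) := by
    ext t
    constructor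
    · rintro ⟨x, hx, y, hy, rfl⟩
      exact ⟨(x, y), ⟨hx, hy⟩, rfl⟩
    · rintro ⟨⟨x, y⟩, ⟨hx, hy⟩, rfl⟩
      exact ⟨x, hx, y, hy, rfl⟩
  rw [this]
  exact (hA.prod hA).image (v1_cont.add (continuous_const.mul v2_cont))

/-- the conditioned measure -/
theorem cond_props {X : Type*} [MetricSpace X] [MeasurableSpace X] [BorelSpace X]
    (μ : Measure X) [IsProbabilityMeasure μ] (B : Set X) (hB : IsClosed B) (hB0 : μ B ≠ 0)
    (A : Set X) (hA : μ Aᶜ = 0) (C s : ℝ) (hC : 0 < C)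
    (h : ∀ (x : X) (r : ℝ), 0 < r → μ (closedBall x r) ≤ ENNReal.ofReal (C * r ^ s)) :
    ∃ ν : Measure X, IsProbabilityMeasure ν ∧ ν Aᶜ = 0 ∧ ν Bᶜ = 0 ∧
      ∃ C' : ℝ, 0 < C' ∧ C ≤ C' ∧
        ∀ (x : X) (r : ℝ), 0 < r → ν (closedBall x r) ≤ ENNReal.ofReal (C' * r ^ s) := by
  have hBt : μ B ≠ ⊤ := measure_ne_top _ _
  refine ⟨(μ B)⁻¹ • μ.restrict B, ⟨?_⟩, ?_, ?_, C * ((μ B)⁻¹).toReal, ?_, ?_, ?_⟩
  · rw [Measure.smul_apply, Measure.restrict_apply_univ, smul_eq_mul]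
    exact ENNReal.inv_mul_cancel hB0 hBt
  · rw [Measure.smul_apply, smul_eq_mul]
    have : μ.restrict B Aᶜ = 0 := le_antisymm ((Measure.restrict_apply_le _ _).trans hA.le) zero_le
    rw [this, mul_zero]
  · rw [Measure.smul_apply, smul_eq_mul]
    have : μ.restrict B Bᶜ = 0 := by
      rw [Measure.restrict_apply hB.measurableSet.compl]
      simp
    rw [this, mul_zero]
  · have : 0 < ((μ B)⁻¹).toReal := by
      rw [ENNReal.toReal_pos_iff]
      exact ⟨ENNReal.inv_pos.2 hBt, ENNReal.inv_lt_top.2 (pos_iff_ne_zero.2 hB0)⟩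
    positivity
  · have h1 : (1 : ℝ) ≤ ((μ B)⁻¹).toReal := by
      rw [← ENNReal.toReal_one]
      refine ENNReal.toReal_mono (ENNReal.inv_ne_top.2 hB0) ?_
      exact ENNReal.one_le_inv.2 prob_le_one
    nlinarith
  · intro x r hr
    rw [Measure.smul_apply, smul_eq_mul]
    have h2 : μ.restrict B (closedBall x r) ≤ ENNReal.ofReal (C * r ^ s) :=
      (Measure.restrict_apply_le _ _).trans (h x r hr)
    calc (μ B)⁻¹ * μ.restrict B (closedBall x r)
        ≤ (μ B)⁻¹ * ENNReal.ofReal (C * r ^ s) := by gcongr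
      _ = ENNReal.ofReal (C * ((μ B)⁻¹).toReal * r ^ s) := by
        have h3 : (μ B)⁻¹ = ENNReal.ofReal ((μ B)⁻¹).toReal :=
          (ENNReal.ofReal_toReal (ENNReal.inv_ne_top.2 hB0)).symm
        rw [h3, ← ENNReal.ofReal_mul ENNReal.toReal_nonneg, ← h3]
        congr 1
        ring

/-- a measure on a slice -/
theorem slice_case {X : Type*} {n : ℕ} [MetricSpace X] [MeasurableSpace X] [BorelSpace X]
    (μ : Measure X) [IsProbabilityMeasure μ] (A : Set X) (hA : IsCompact A) (hμA : μ Aᶜ = 0)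
    (C s : ℝ) (hC : 0 < C) (hs : (n : ℝ) + 1 < 2 * s)
    (h : ∀ (x : X) (r : ℝ), 0 < r → μ (closedBall x r) ≤ ENNReal.ofReal (C * r ^ s))
    (pr : X → E n) (hpr : Continuous pr) (em : E n → X) (hem : Isometry em)
    (hae : ∀ᵐ x ∂μ, x = em (pr x)) :
    0 < volume (Pool.Agent.H744R2.Falc.addDist {0} (em ⁻¹' A)) := by
  have hcl : Topology.IsClosedEmbedding em := hem.isClosedEmbedding
  have hF : IsCompact (em ⁻¹' A) := hcl.isCompact_preimage hA
  refine Pool.Agent.H744R2.Falc.positive_step n {0} (em ⁻¹' A) isCompact_singleton hF 0 s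
    le_rfl zero_le_one (by have : (0 : ℝ) ≤ n := Nat.cast_nonneg n
                           linarith) (by linarith)
    (Pool.Agent.H744R2.Falc.fro_zero _ (measurableSet_singleton 0) (singleton_nonempty 0)) ?_
  have hprm : Measurable pr := hpr.measurable
  refine ⟨μ.map pr, Measure.isProbabilityMeasure_map hprm.aemeasurable, ?_, C, hC, ?_⟩
  · rw [Measure.map_apply hprm hF.measurableSet.compl]
    have : ∀ᵐ x ∂μ, x ∈ A := by rw [ae_iff]; exact hμA
    have h2 : ∀ᵐ x ∂μ, x ∉ pr ⁻¹' (em ⁻¹' A)ᶜ := by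
      filter_upwards [this, hae] with x hx hx'
      simp only [mem_preimage, mem_compl_iff, not_not]
      rw [← hx']
      exact hx
    rw [ae_iff] at h2
    simp only [not_not] at h2
    exact h2
  · intro z r hr
    rw [Measure.map_apply hprm isClosed_closedBall.measurableSet]
    refine le_trans (measure_mono_ae ?_) (h (em z) r hr)
    filter_upwards [hae] with x hx hx'
    have h3 : dist (pr x) z ≤ r := hx'
    show x ∈ closedBall (em z) r
    rw [mem_closedBall, hx, hem.dist_eq]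
    exact h3

theorem em2_isometry {m k : ℕ} (x₀ : E m) : Isometry (fun y : E k => ((x₀, y) : E m × E k)) := by
  refine Isometry.of_dist_eq fun y y' => ?_
  rw [Prod.dist_eq]
  simp

theorem em1_isometry {m k : ℕ} (y₀ : E k) : Isometry (fun x : E m => ((x, y₀) : E m × E k)) := by
  refine Isometry.of_dist_eq fun y y' => ?_
  rw [Prod.dist_eq]
  simp

theorem xmain (hC : Pool.Agent.TH597.FD.CORE) (hP : Pool.Agent.TH597.FD.PROJ)
    (hQ : Pool.Agent.TH597.FD.POS) (hS : Pool.Agent.TH597.FD.SEP) :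
    Pool.Agent.TH597.FD.XMAIN := by
  intro m k A s hA hm hk hs hFro
  obtain ⟨μ, hμp, hμA, C, hC0, hμ⟩ := hFro
  have hm' : (1 : ℝ) ≤ m := by exact_mod_cast hm
  have hk' : (1 : ℝ) ≤ k := by exact_mod_cast hk
  rcases hS m k μ with ⟨c₀, B₁, B₂, hc₀, hB₁, hB₂, hμ1, hμ2, hsep⟩ | ⟨x₀, hx₀⟩ | ⟨x₀, hx₀⟩
  · obtain ⟨μ₁, hp1, hA1, hBc1, C₁, hC₁, hCC₁, hb1⟩ :=
      cond_props μ B₁ hB₁ hμ1 A hμA C s hC0 hμ
    obtain ⟨μ₂, hp2, hA2, hBc2, C₂, hC₂, hCC₂, hb2⟩ :=
      cond_props μ B₂ hB₂ hμ2 A hμA C s hC0 hμ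
    -- common constant
    have hb1' : ∀ (x : E m × E k) (r : ℝ), 0 < r →
        μ₁ (closedBall x r) ≤ ENNReal.ofReal (max C₁ C₂ * r ^ s) := fun x r hr =>
      (hb1 x r hr).trans (ENNReal.ofReal_le_ofReal (by gcongr; exact le_max_left _ _))
    have hb2' : ∀ (x : E m × E k) (r : ℝ), 0 < r →
        μ₂ (closedBall x r) ≤ ENNReal.ofReal (max C₁ C₂ * r ^ s) := fun x r hr =>
      (hb2 x r hr).trans (ENNReal.ofReal_le_ofReal (by gcongr; exact le_max_right _ _))
    have hs0 : 0 ≤ s := by linarith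
    -- almost sure properties
    have aeA1 : ∀ᵐ x ∂μ₁, x ∈ A ∧ x ∈ B₁ := by
      have h1 : ∀ᵐ x ∂μ₁, x ∈ A := by rw [ae_iff]; exact hA1
      have h2 : ∀ᵐ x ∂μ₁, x ∈ B₁ := by rw [ae_iff]; exact hBc1
      exact h1.and h2
    have aeA2 : ∀ᵐ x ∂μ₂, x ∈ A ∧ x ∈ B₂ := by
      have h1 : ∀ᵐ x ∂μ₂, x ∈ A := by rw [ae_iff]; exact hA2
      have h2 : ∀ᵐ x ∂μ₂, x ∈ B₂ := by rw [ae_iff]; exact hBc2
      exact h1.and h2
    have aeP : ∀ᵐ p ∂(μ₁.prod μ₂), (p.1 ∈ A ∧ p.1 ∈ B₁) ∧ (p.2 ∈ A ∧ p.2 ∈ B₂) := by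
      have h1 : ∀ᵐ p ∂(μ₁.prod μ₂), p.1 ∈ A ∧ p.1 ∈ B₁ :=
        Measure.quasiMeasurePreserving_fst.ae aeA1
      have h2 : ∀ᵐ p ∂(μ₁.prod μ₂), p.2 ∈ A ∧ p.2 ∈ B₂ :=
        Measure.quasiMeasurePreserving_snd.ae aeA2
      exact h1.and h2
    have aesep : ∀ᵐ p ∂(μ₁.prod μ₂), c₀ ≤ v1 p ∧ c₀ ≤ v2 p := by
      filter_upwards [aeP] with p hp
      exact hsep p.1 hp.1.2 p.2 hp.2.2
    have hcore := hC m k μ₁ μ₂ (max C₁ C₂) s c₀ (lt_max_of_lt_left hC₁) hs0 hc₀ hb1' hb2' aesep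
    -- the radius
    obtain ⟨R₀, hR₀⟩ := hA.isBounded.subset_closedBall 0
    set R : ℝ := (2 * max R₀ 1) ^ 2 with hRdef
    have hRpos : 0 < R := by positivity
    have hvR : ∀ p : (E m × E k) × (E m × E k), p.1 ∈ A → p.2 ∈ A → v1 p ≤ R ∧ v2 p ≤ R := by
      intro p h1 h2
      have e1 : ‖p.1‖ ≤ max R₀ 1 := (by simpa using hR₀ h1 : ‖p.1‖ ≤ R₀).trans (le_max_left _ _)
      have e2 : ‖p.2‖ ≤ max R₀ 1 := (by simpa using hR₀ h2 : ‖p.2‖ ≤ R₀).trans (le_max_left _ _)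
      have f1 : ‖p.1.1‖ ≤ ‖p.1‖ := norm_fst_le _
      have f2 : ‖p.1.2‖ ≤ ‖p.1‖ := norm_snd_le _
      have g1 : ‖p.2.1‖ ≤ ‖p.2‖ := norm_fst_le _
      have g2 : ‖p.2.2‖ ≤ ‖p.2‖ := norm_snd_le _
      constructor
      · unfold v1
        rw [hRdef]
        refine pow_le_pow_left₀ (norm_nonneg _) ?_ 2
        exact (norm_sub_le _ _).trans (by linarith)
      · unfold v2
        rw [hRdef]
        refine pow_le_pow_left₀ (norm_nonneg _) ?_ 2
        exact (norm_sub_le _ _).trans (by linarith)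
    set a : ℝ := π / (2 * R) with hadef
    have ha : 0 < a := by positivity
    have haR : a * R ≤ π / 2 := by
      rw [hadef]
      apply le_of_eq
      field_simp
    have hv10 : ∀ p : (E m × E k) × (E m × E k), 0 ≤ v1 p := fun p => by unfold v1; positivity
    have hv20 : ∀ p : (E m × E k) × (E m × E k), 0 ≤ v2 p := fun p => by unfold v2; positivity
    have hv1m : Measurable (v1 : (E m × E k) × (E m × E k) → ℝ) := v1_cont.measurable
    have hv2m : Measurable (v2 : (E m × E k) × (E m × E k) → ℝ) := v2_cont.measurable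
    have hproj := hP (N (μ₁.prod μ₂) v1 v2) 1 a (1 + ((m : ℝ) + k) / 2 - s)
      (N_cont _ _ _ hv1m hv2m hv10 hv20) (N_bound _ _ _ hv10 hv20) ha hcore
    refine (dimH_mono ?_).trans hproj
    rintro lam ⟨hlam, hvol⟩
    refine ⟨hlam, ?_⟩
    by_contra hfin
    have hpos := hQ _ (μ₁.prod μ₂) v1 v2 hv1m hv2m c₀ R a lam hc₀ ha haR hlam
      (by
        filter_upwards [aeP, aesep] with p hp hq
        have := hvR p hp.1.1 hp.2.1
        exact ⟨hq.1, this.1, hq.2, this.2⟩)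
      (quadSet A lam) (quadSet_compact hA lam)
      (by
        filter_upwards [aeP] with p hp
        exact ⟨p.1, hp.1.1, p.2, hp.2.1, rfl⟩)
      hfin
    rw [hvol] at hpos
    exact lt_irrefl _ hpos
  · -- one fibre in the first factor
    have hpos := slice_case (n := k) μ A hA hμA C s hC0 (by linarith) hμ Prod.snd continuous_snd
      (fun y => (x₀, y)) (em2_isometry x₀) (by
        filter_upwards [hx₀] with x hx
        rw [← hx])
    have hempty : {lam : ℝ | 0 < lam ∧ volume (quadSet A lam) = 0} = ∅ := by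
      refine eq_empty_of_forall_notMem ?_
      rintro lam ⟨hlam, hvol⟩
      set S := Pool.Agent.H744R2.Falc.addDist {(0 : ℝ)} ((fun y : E k => ((x₀, y) : E m × E k)) ⁻¹' A)
        with hSdef
      have hsub : lam • S ⊆ quadSet A lam := by
        rintro _ ⟨t, ⟨u, hu, y, hy, y', hy', rfl⟩, rfl⟩
        have hu0 : u = 0 := hu
        subst hu0
        refine ⟨(x₀, y), hy, (x₀, y'), hy', ?_⟩
        simp [dist_eq_norm]
      have h1 : volume (lam • S) = 0 := le_antisymm ((measure_mono hsub).trans hvol.le) zero_le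
      rw [Measure.addHaar_smul] at h1
      rcases mul_eq_zero.1 h1 with h2 | h2
      · rw [ENNReal.ofReal_eq_zero] at h2
        simp at h2
        exact hlam.ne' h2
      · exact hpos.ne' h2
    rw [hempty, dimH_empty]
    exact zero_le
  · -- one fibre in the second factor
    have hpos := slice_case (n := m) μ A hA hμA C s hC0 (by linarith) hμ Prod.fst continuous_fst
      (fun y => (y, x₀)) (em1_isometry x₀) (by
        filter_upwards [hx₀] with x hx
        rw [← hx])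
    have hempty : {lam : ℝ | 0 < lam ∧ volume (quadSet A lam) = 0} = ∅ := by
      refine eq_empty_of_forall_notMem ?_
      rintro lam ⟨hlam, hvol⟩
      have hsub : Pool.Agent.H744R2.Falc.addDist {(0 : ℝ)}
          ((fun x : E m => ((x, x₀) : E m × E k)) ⁻¹' A) ⊆ quadSet A lam := by
        rintro _ ⟨u, hu, y, hy, y', hy', rfl⟩
        have hu0 : u = 0 := hu
        subst hu0
        refine ⟨(y, x₀), hy, (y', x₀), hy', ?_⟩
        simp [dist_eq_norm]
      exact hpos.ne' (le_antisymm ((measure_mono hsub).trans hvol.le) zero_le)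
    rw [hempty, dimH_empty]
    exact zero_le

end Pool.Agent.TH938.FD_XMAIN
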