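import Pool.Agent.TH614.HS.Base

/-!
Project HS: a degenerate point with `D_s = 0` is special (SP1).
-/

set_option autoImplicit false

namespace Pool.Agent.TH938.J3879

open Pool.Agent.TH614.HS

theorem SP1 : S_HAT → S_MT → S_L2 → S_CH1 → S_RAM → S_SP1 := by
  intro hHAT hMT hL2 hCH1 hRAM L _ _ D x s mu eta P Y hx hR hm hne hD hDd
  have h2 : (2 : L) ≠ 0 := D.two_ne
  obtain ⟨hs, hRDa⟩ := id hR
  have hon := hm.onL hx
  have hon' := hm.onL' hx
  have hx6 := hx.p6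
  have ht : D.nt s ≠ 0 := inv_ne_zero (pow_ne_zero _ hs)
  obtain ⟨⟨hP6, hY2⟩, -⟩ := id hm
  -- the root of the point
  have hr : mu * s * P + eta * Y = 0 := by
    have h := hRDa _ _ _ _ hon
    rw [hD] at h
    exact pow_eq_zero_iff (two_ne_zero) |>.1 h.symm
  -- the hat
  have hrh := hHAT L D.th _ _ _ _ _ _ s mu eta h2 D.th2 hx.PL hs hRDa _ _ _ _ hon'
  rw [hDd] at hrh
  have hrh0 := pow_eq_zero_iff (two_ne_zero) |>.1 hrh.symm
  -- the second root of the point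
  have hrt : D.mM x s mu eta * D.nt s * P ^ (D.q ^ 4) + D.mE x s mu eta * Y = 0 := by
    have h3 := congrArg D.fr hrh0
    simp only [map_add, map_mul, map_div₀, map_pow, map_inv₀, map_zero, map_ofNat] at h3
    simp only [HD.fr_def, D.thq] at h3
    have e1 : (x ^ D.q) ^ (D.q ^ 3) = x ^ (D.q ^ 4) := D.qp x 3
    have e2 : (P ^ D.q) ^ (D.q ^ 3) = P ^ (D.q ^ 4) := D.qp P 3
    rw [e1, e2, D.qq, hY2] at h3
    rw [← h3]
    unfold HD.mM HD.mE HD.nt
    have e3 : s ^ (2 * D.q) = (s ^ D.q) ^ 2 := by rw [mul_comm, pow_mul]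
    rw [e3]
    ring
  by_cases hram : mu + D.th * eta = 0
  · obtain ⟨be, g, ep, -, -, -, -, -, hbe, hg, -, -, hl, -, -, -⟩ := hRAM L D x s mu eta hx hR hram
    obtain ⟨k1, k2, k3⟩ := hl _ _ _ _ hon
    have hl1 : l1 s (D.nt s) P (P ^ (D.q ^ 4)) = 0 := by
      rw [hr, mul_zero] at k3
      rcases mul_eq_zero.1 k3.symm with h | h
      · exact absurd h hbe
      · exact h
    rw [hl1, mul_zero] at k2
    unfold l1 at hl1
    unfold l2 at k1
    have e1 : s * P = D.nt s * P ^ (D.q ^ 4) := by linear_combination hl1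
    have e2 : s * P = -(P ^ (D.q ^ 2) / (s * D.nt s)) := by
      have h4 : 2 * (s * P + P ^ (D.q ^ 2) / (s * D.nt s)) = 0 := by
        linear_combination k1 + hl1 + D.th * k2 - (P ^ (D.q ^ 2) / (s * D.nt s)) * D.th2
      rcases mul_eq_zero.1 h4 with h | h
      · exact absurd h h2
      · linear_combination h
    refine ⟨e1, e2, ?_⟩
    linear_combination k2 - D.th * e2
  · exfalso
    have hRt := (hMT L D x s mu eta hx hR).2
    have q1 : (x ^ (D.q ^ 4)) ^ (D.q ^ 2) = x := by rw [D.pp]; exact hx6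
    have q2 : (x ^ (D.q ^ 4)) ^ (D.q ^ 4) = x ^ (D.q ^ 2) := by rw [D.pp]; exact D.p8 hx6
    have q3 : (x ^ (D.q ^ 4)) ^ (D.q ^ 3) = x ^ D.q := by rw [D.pp]; exact D.p7 hx6
    have q4 : (x ^ (D.q ^ 4)) ^ (D.q ^ 5) = x ^ (D.q ^ 3) := by rw [D.pp]; exact D.p9 hx6
    have q5 : (x ^ (D.q ^ 4)) ^ D.q = x ^ (D.q ^ 5) := by rw [D.pq]
    rw [q1, q2, q3, q4, q5] at hRt
    have hex : ∃ P0 P1 P2 Y, OnL x (x ^ (D.q ^ 2)) (x ^ (D.q ^ 4)) (x ^ (D.q ^ 3))
        (x ^ (D.q ^ 5)) (x ^ D.q) P0 P1 P2 Y ∧ l2 D.th s (D.nt s) P0 P1 P2 Y ≠ 0 := by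
      by_contra hcon
      push Not at hcon
      exact hram (hL2 L D.th _ _ _ _ _ _ s (D.nt s) mu eta _ _ h2 D.th2 hx.PL hs ht hRDa hRt
        hcon).1
    obtain ⟨H, be, g, rho, hH, hbe, hg, hbg, -, hl⟩ := hCH1 L D.th _ _ _ _ _ _ s (D.nt s) mu eta
      _ _ h2 D.th2 hx.PL hs ht hRDa hRt hex
    obtain ⟨k1, k2, k3, k4⟩ := hl _ _ _ _ hon
    rw [hr, hrt] at k1 k2
    have hl1 : l1 s (D.nt s) P (P ^ (D.q ^ 4)) = 0 := by
      have h5 : be * l1 s (D.nt s) P (P ^ (D.q ^ 4)) = 0 := by rw [← k1]; ring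
      rcases mul_eq_zero.1 h5 with h | h
      · exact absurd h hbe
      · exact h
    have hl2 : l2 D.th s (D.nt s) P (P ^ (D.q ^ 2)) (P ^ (D.q ^ 4)) Y = 0 := by
      have h5 : l2 D.th s (D.nt s) P (P ^ (D.q ^ 2)) (P ^ (D.q ^ 4)) Y / be = 0 := by
        rw [← k2]; ring
      rcases div_eq_zero_iff.1 h5 with h | h
      · exact h
      · exact absurd h hbe
    rw [hl1, hl2] at k3 k4
    have hW : P ^ (D.q ^ 2) / (s * D.nt s) = 0 := by
      have h5 : (4 : L) * (P ^ (D.q ^ 2) / (s * D.nt s)) = 0 := by rw [k4]; ring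
      rcases mul_eq_zero.1 h5 with h | h
      · exact absurd h D.four_ne
      · exact h
    rw [hW] at k3
    have hY : Y = 0 := by linear_combination k3
    have hP : P = 0 := by
      rcases div_eq_zero_iff.1 hW with h | h
      · exact pow_eq_zero_iff (pow_ne_zero _ D.q_ne) |>.1 h
      · exact absurd h (mul_ne_zero hs ht)
    rcases hne with h | h
    · exact h hP
    · exact h hY

end Pool.Agent.TH938.J3879
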